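import Pool.Agent.Q127.SK.Defs

/-!
# Calculations in the `(4, ∞)` skein module for `a = b₀ = b₁ = b₂ = b₃ = 1`
-/

set_option autoImplicit false
set_option linter.unusedSimpArgs false
set_option linter.unusedSectionVars false

namespace Pool.Agent.Q127.SK

open Polynomial Kind

section general

variable {R : Type} [CommRing R] (a b₀ b₁ b₂ b₃ c : R)

/-- The class of a word in the skein module. -/
noncomputable def cls (w : List Piece) : SkeinModule a b₀ b₁ b₂ b₃ c := by
  classical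
  exact if h : run w 0 = some 0 then
    Submodule.Quotient.mk (Finsupp.single (Diagram.link ⟨w, h⟩) 1) else 0

theorem cls_eq (w : List Piece) (h : run w 0 = some 0) :
    cls a b₀ b₁ b₂ b₃ c w = Submodule.Quotient.mk (Finsupp.single (Diagram.link ⟨w, h⟩) 1) := by
  unfold cls
  rw [dif_pos h]

theorem cls_move {x y : List Piece} (hl : Local x y) (u v : List Piece)
    (hx : run (u ++ x ++ v) 0 = some 0) (hy : run (u ++ y ++ v) 0 = some 0) :
    cls a b₀ b₁ b₂ b₃ c (u ++ x ++ v) = cls a b₀ b₁ b₂ b₃ c (u ++ y ++ v) := by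
  rw [cls_eq _ _ _ _ _ _ _ hx, cls_eq _ _ _ _ _ _ _ hy]
  congr 2
  exact Quot.sound ⟨u, v, x, y, hl, rfl, rfl⟩

theorem cls_skein (u v : List Piece) (i : ℕ) (h0 : run (u ++ v) 0 = some 0)
    (h1 : run (u ++ [(pos, i)] ++ v) 0 = some 0)
    (h2 : run (u ++ [(pos, i), (pos, i)] ++ v) 0 = some 0)
    (h3 : run (u ++ [(pos, i), (pos, i), (pos, i)] ++ v) 0 = some 0)
    (h4 : run (u ++ [(cap, i), (cup, i)] ++ v) 0 = some 0) :
    b₀ • cls a b₀ b₁ b₂ b₃ c (u ++ v) + b₁ • cls a b₀ b₁ b₂ b₃ c (u ++ [(pos, i)] ++ v) +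
      b₂ • cls a b₀ b₁ b₂ b₃ c (u ++ [(pos, i), (pos, i)] ++ v) +
      b₃ • cls a b₀ b₁ b₂ b₃ c (u ++ [(pos, i), (pos, i), (pos, i)] ++ v) +
      c • cls a b₀ b₁ b₂ b₃ c (u ++ [(cap, i), (cup, i)] ++ v) = 0 := by
  rw [cls_eq _ _ _ _ _ _ _ h0, cls_eq _ _ _ _ _ _ _ h1, cls_eq _ _ _ _ _ _ _ h2,
    cls_eq _ _ _ _ _ _ _ h3, cls_eq _ _ _ _ _ _ _ h4]
  have : b₀ • Finsupp.single (Diagram.link ⟨_, h0⟩) (1 : R) +
      b₁ • Finsupp.single (Diagram.link ⟨_, h1⟩) (1 : R) +
      b₂ • Finsupp.single (Diagram.link ⟨_, h2⟩) (1 : R) +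
      b₃ • Finsupp.single (Diagram.link ⟨_, h3⟩) (1 : R) +
      c • Finsupp.single (Diagram.link ⟨_, h4⟩) (1 : R) ∈ skeinRel a b₀ b₁ b₂ b₃ c := by
    apply Submodule.subset_span
    left
    exact ⟨⟨_, h0⟩, ⟨_, h1⟩, ⟨_, h2⟩, ⟨_, h3⟩, ⟨_, h4⟩, ⟨u, v, i, rfl, rfl, rfl, rfl, rfl⟩, rfl⟩
  rw [← Submodule.Quotient.mk_eq_zero] at this
  exact this

theorem cls_cap (u v : List Piece) (i : ℕ) (h0 : run (u ++ [(cap, i)] ++ v) 0 = some 0)
    (h1 : run (u ++ [(neg, i), (cap, i)] ++ v) 0 = some 0) :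
    cls a b₀ b₁ b₂ b₃ c (u ++ [(neg, i), (cap, i)] ++ v) =
      a • cls a b₀ b₁ b₂ b₃ c (u ++ [(cap, i)] ++ v) := by
  rw [cls_eq _ _ _ _ _ _ _ h0, cls_eq _ _ _ _ _ _ _ h1, ← sub_eq_zero]
  have : Finsupp.single (Diagram.link ⟨_, h1⟩) (1 : R) -
      a • Finsupp.single (Diagram.link ⟨_, h0⟩) (1 : R) ∈ skeinRel a b₀ b₁ b₂ b₃ c := by
    apply Submodule.subset_span
    right
    exact ⟨⟨_, h0⟩, ⟨_, h1⟩, ⟨u, v, i, Or.inl ⟨rfl, rfl⟩⟩, rfl⟩
  rw [← Submodule.Quotient.mk_eq_zero] at this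
  exact this

theorem cls_cup (u v : List Piece) (i : ℕ) (h0 : run (u ++ [(cup, i)] ++ v) 0 = some 0)
    (h1 : run (u ++ [(cup, i), (neg, i)] ++ v) 0 = some 0) :
    cls a b₀ b₁ b₂ b₃ c (u ++ [(cup, i), (neg, i)] ++ v) =
      a • cls a b₀ b₁ b₂ b₃ c (u ++ [(cup, i)] ++ v) := by
  rw [cls_eq _ _ _ _ _ _ _ h0, cls_eq _ _ _ _ _ _ _ h1, ← sub_eq_zero]
  have : Finsupp.single (Diagram.link ⟨_, h1⟩) (1 : R) -
      a • Finsupp.single (Diagram.link ⟨_, h0⟩) (1 : R) ∈ skeinRel a b₀ b₁ b₂ b₃ c := by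
    apply Submodule.subset_span
    right
    exact ⟨⟨_, h0⟩, ⟨_, h1⟩, ⟨u, v, i, Or.inr ⟨rfl, rfl⟩⟩, rfl⟩
  rw [← Submodule.Quotient.mk_eq_zero] at this
  exact this

end general

/-! ### The special parameters -/

section special

variable {R : Type} [CommRing R] (b : Rˣ)

/-- The class of a word, all parameters but the last one being `1`. -/
noncomputable def kl (w : List Piece) : SkeinModule (1 : R) 1 1 1 1 (b : R) :=
  cls (1 : R) 1 1 1 1 (b : R) w

theorem kl_move {x y : List Piece} (hl : Local x y) (u v : List Piece)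
    (hx : run (u ++ x ++ v) 0 = some 0) (hy : run (u ++ y ++ v) 0 = some 0) :
    kl b (u ++ x ++ v) = kl b (u ++ y ++ v) := cls_move _ _ _ _ _ _ hl u v hx hy

theorem kl_skein (u v : List Piece) (i : ℕ) (h0 : run (u ++ v) 0 = some 0)
    (h1 : run (u ++ [(pos, i)] ++ v) 0 = some 0)
    (h2 : run (u ++ [(pos, i), (pos, i)] ++ v) 0 = some 0)
    (h3 : run (u ++ [(pos, i), (pos, i), (pos, i)] ++ v) 0 = some 0)
    (h4 : run (u ++ [(cap, i), (cup, i)] ++ v) 0 = some 0) :
    kl b (u ++ v) + kl b (u ++ [(pos, i)] ++ v) +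
      kl b (u ++ [(pos, i), (pos, i)] ++ v) +
      kl b (u ++ [(pos, i), (pos, i), (pos, i)] ++ v) +
      (b : R) • kl b (u ++ [(cap, i), (cup, i)] ++ v) = 0 := by
  have := cls_skein (1 : R) 1 1 1 1 (b : R) u v i h0 h1 h2 h3 h4
  simp only [one_smul] at this
  exact this

/-- A negative kink on a maximum. -/
theorem kl_cap (u v : List Piece) (i : ℕ) (h0 : run (u ++ [(cap, i)] ++ v) 0 = some 0)
    (h1 : run (u ++ [(neg, i), (cap, i)] ++ v) 0 = some 0) :
    kl b (u ++ [(neg, i), (cap, i)] ++ v) = kl b (u ++ [(cap, i)] ++ v) := by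
  have := cls_cap (1 : R) 1 1 1 1 (b : R) u v i h0 h1
  rwa [one_smul] at this

theorem kl_cup (u v : List Piece) (i : ℕ) (h0 : run (u ++ [(cup, i)] ++ v) 0 = some 0)
    (h1 : run (u ++ [(cup, i), (neg, i)] ++ v) 0 = some 0) :
    kl b (u ++ [(cup, i), (neg, i)] ++ v) = kl b (u ++ [(cup, i)] ++ v) := by
  have := cls_cup (1 : R) 1 1 1 1 (b : R) u v i h0 h1
  rwa [one_smul] at this

theorem run_append (u v : List Piece) (n : ℕ) : run (u ++ v) n = (run u n).bind (run v) := by
  induction u generalizing n with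
  | nil => rfl
  | cons p u ih =>
    rw [List.cons_append, run, run]
    split_ifs
    · exact ih _
    · rfl

theorem ok {w v : List Piece} (hw : run w 2 = some 4) (hv : run v 4 = some 0) :
    run ([(cup, 0)] ++ w ++ v) 0 = some 0 := by
  rw [List.append_assoc, run_append]
  show run (w ++ v) 2 = some 0
  rw [run_append, hw]
  exact hv

/-- The value of the word `cup 0, w, v`. -/
noncomputable def K (w v : List Piece) : SkeinModule (1 : R) 1 1 1 1 (b : R) :=
  kl b ([(cup, 0)] ++ w ++ v)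

theorem K_append (p q v : List Piece) : K b (p ++ q) v = K b p (q ++ v) := by
  unfold K
  simp only [List.append_assoc]

theorem K_cons (p v : List Piece) (x : Piece) : K b p (x :: v) = K b (p ++ [x]) v := by
  rw [K_append]
  rfl

theorem K_move {x y : List Piece} (hl : Local x y) (p q v : List Piece) (hv : run v 4 = some 0)
    (hx : run (p ++ x ++ q) 2 = some 4) (hy : run (p ++ y ++ q) 2 = some 4) :
    K b (p ++ x ++ q) v = K b (p ++ y ++ q) v := by
  have h1 := ok hx hv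
  have h2 := ok hy hv
  have := kl_move b hl ([(cup, 0)] ++ p) (q ++ v) (by simpa only [List.append_assoc] using h1)
    (by simpa only [List.append_assoc] using h2)
  unfold K
  simpa only [List.append_assoc] using this

theorem K_skein (p v : List Piece) (i : ℕ) (hv : run v 4 = some 0) (hp : run p 2 = some 4)
    (hi : i ≤ 2) :
    K b p v + K b (p ++ [(pos, i)]) v + K b (p ++ [(pos, i), (pos, i)]) v +
      K b (p ++ [(pos, i), (pos, i), (pos, i)]) v +
      (b : R) • K b (p ++ [(cap, i), (cup, i)]) v = 0 := by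
  have hi' : i + 2 ≤ 4 := by omega
  have h0 := ok hp hv
  have h1 : run (p ++ [(pos, i)]) 2 = some 4 := by
    rw [run_append, hp]; simp [run, Kind.inw, Kind.outw, hi']
  have h2 : run (p ++ [(pos, i), (pos, i)]) 2 = some 4 := by
    rw [run_append, hp]; simp [run, Kind.inw, Kind.outw, hi', hi]
  have h3 : run (p ++ [(pos, i), (pos, i), (pos, i)]) 2 = some 4 := by
    rw [run_append, hp]; simp [run, Kind.inw, Kind.outw, hi', hi]
  have h4 : run (p ++ [(cap, i), (cup, i)]) 2 = some 4 := by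
    rw [run_append, hp]; simp [run, Kind.inw, Kind.outw, hi', hi]
  have := kl_skein b ([(cup, 0)] ++ p) v i h0
    (by simpa only [List.append_assoc] using ok h1 hv)
    (by simpa only [List.append_assoc] using ok h2 hv)
    (by simpa only [List.append_assoc] using ok h3 hv)
    (by simpa only [List.append_assoc] using ok h4 hv)
  unfold K
  simpa only [List.append_assoc] using this

theorem K_cap (p q v : List Piece) (i : ℕ) (hv : run v 4 = some 0)
    (h0 : run (p ++ [(cap, i)] ++ q) 2 = some 4)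
    (h1 : run (p ++ [(neg, i), (cap, i)] ++ q) 2 = some 4) :
    K b (p ++ [(neg, i), (cap, i)] ++ q) v = K b (p ++ [(cap, i)] ++ q) v := by
  have := kl_cap b ([(cup, 0)] ++ p) (q ++ v) i
    (by simpa only [List.append_assoc] using ok h0 hv)
    (by simpa only [List.append_assoc] using ok h1 hv)
  unfold K
  simpa only [List.append_assoc] using this

theorem K_cup (p q v : List Piece) (i : ℕ) (hv : run v 4 = some 0)
    (h0 : run (p ++ [(cup, i)] ++ q) 2 = some 4)
    (h1 : run (p ++ [(cup, i), (neg, i)] ++ q) 2 = some 4) :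
    K b (p ++ [(cup, i), (neg, i)] ++ q) v = K b (p ++ [(cup, i)] ++ q) v := by
  have := kl_cup b ([(cup, 0)] ++ p) (q ++ v) i
    (by simpa only [List.append_assoc] using ok h0 hv)
    (by simpa only [List.append_assoc] using ok h1 hv)
  unfold K
  simpa only [List.append_assoc] using this

/-- Four half twists can be removed. -/
theorem K_four (p v : List Piece) (i : ℕ) (hv : run v 4 = some 0) (hp : run p 2 = some 4)
    (hi : i ≤ 2) :
    K b (p ++ [(pos, i), (pos, i), (pos, i), (pos, i)]) v = K b p v := by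
  have hi' : i + 2 ≤ 4 := by omega
  have hp1 : run (p ++ [(pos, i)]) 2 = some 4 := by
    rw [run_append, hp]; simp [run, Kind.inw, Kind.outw, hi']
  have e1 := K_skein b p v i hv hp hi
  have e2 := K_skein b (p ++ [(pos, i)]) v i hv hp1 hi
  have e3 : K b (p ++ [(pos, i)] ++ [(cap, i), (cup, i)]) v =
      K b (p ++ [(cap, i), (cup, i)]) v := by
    have a1 := K_cap b (p ++ [(pos, i)]) [(cup, i)] v i hv
      (by rw [run_append, run_append, run_append, hp]; simp [run, Kind.inw, Kind.outw, hi', hi])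
      (by rw [run_append, run_append, run_append, hp]; simp [run, Kind.inw, Kind.outw, hi', hi])
    have a2 := K_move b (Local.two i) p [(cap, i), (cup, i)] v hv
      (by rw [run_append, run_append, hp]; simp [run, Kind.inw, Kind.outw, hi', hi])
      (by rw [run_append, run_append, hp]; simp [run, Kind.inw, Kind.outw, hi', hi])
    simp only [List.append_assoc, List.cons_append, List.nil_append] at a1 a2 ⊢
    rw [← a1, a2]
  rw [e3] at e2
  simp only [List.append_assoc, List.cons_append, List.nil_append] at e2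
  have := sub_eq_zero.2 (e2.trans e1.symm)
  rw [← sub_eq_zero, ← this]
  abel

/-- A negative crossing is three positive crossings. -/
theorem K_neg (p q v : List Piece) (i : ℕ) (hv : run (q ++ v) 4 = some 0) (hp : run p 2 = some 4)
    (hi : i ≤ 2) :
    K b (p ++ [(neg, i)] ++ q) v = K b (p ++ [(pos, i), (pos, i), (pos, i)] ++ q) v := by
  have hi' : i + 2 ≤ 4 := by omega
  have hp1 : run (p ++ [(neg, i)]) 2 = some 4 := by
    rw [run_append, hp]; simp [run, Kind.inw, Kind.outw, hi']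
  rw [K_append b _ q, K_append b _ q]
  have e1 := K_four b (p ++ [(neg, i)]) (q ++ v) i hv hp1 hi
  have e2 := K_move b (Local.two' i) p [(pos, i), (pos, i), (pos, i)] (q ++ v) hv
      (by rw [run_append, run_append, hp]; simp [run, Kind.inw, Kind.outw, hi', hi])
      (by rw [run_append, run_append, hp]; simp [run, Kind.inw, Kind.outw, hi', hi])
  simp only [List.append_assoc, List.cons_append, List.nil_append] at e1 e2 ⊢
  rw [← e1, e2]

theorem run_cons4 {v : List Piece} (hv : run v 4 = some 0) (k : Kind) (hk : k = pos ∨ k = neg)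
    (i : ℕ) (hi : i ≤ 2) : run ((k, i) :: v) 4 = some 0 := by
  have hi' : i + 2 ≤ 4 := by omega
  rcases hk with rfl | rfl <;> simp [run, Kind.inw, Kind.outw, hi', hv]

variable {v : List Piece} (hv : run v 4 = some 0)

include hv

/-- `σ_1` on the cup at `0` is `σ_0⁻¹` on the cup at `1`. -/
theorem Ym_eq : K b [(cup, 0), (pos, 1)] v = K b [(cup, 1), (neg, 0)] v :=
  K_move b (Local.cupPos 0) [] [] v hv rfl rfl

theorem Yp_eq : K b [(cup, 0), (neg, 1)] v = K b [(cup, 1), (pos, 0)] v :=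
  K_move b (Local.cupNeg 0) [] [] v hv rfl rfl

theorem E1 : K b [(cup, 1)] v + K b [(cup, 1), (pos, 0)] v + K b [(cup, 1), (pos, 0), (pos, 0)] v +
    K b [(cup, 1), (neg, 0)] v + (b : R) • K b [(cup, 0)] v = 0 := by
  have e := K_skein b [(cup, 1)] v 0 hv rfl (by norm_num)
  have e1 := K_neg b [(cup, 1)] [] v 0 hv rfl (by norm_num)
  have e2 := K_move b (Local.zag 0) [] [(cup, 0)] v hv rfl rfl
  simp only [List.append_assoc, List.cons_append, List.nil_append, zero_add] at e e1 e2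
  rw [e2, ← e1] at e
  exact e

theorem E2 : K b [(cup, 0)] v + K b [(cup, 1), (neg, 0)] v + K b [(cup, 0), (pos, 1), (pos, 1)] v +
    K b [(cup, 1), (pos, 0)] v + (b : R) • K b [(cup, 1)] v = 0 := by
  have e := K_skein b [(cup, 0)] v 1 hv rfl (by norm_num)
  have e1 := K_neg b [(cup, 0)] [] v 1 hv rfl (by norm_num)
  have e2 := K_move b (Local.zig 0) [] [(cup, 1)] v hv rfl rfl
  simp only [List.append_assoc, List.cons_append, List.nil_append, zero_add] at e e1 e2
  rw [e2, ← e1, Yp_eq b hv, Ym_eq b hv] at e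
  exact e

theorem X2_pos : K b [(cup, 1), (pos, 0), (pos, 0)] ((pos, 1) :: v) =
    K b [(cup, 1), (pos, 0), (pos, 0)] v := by
  rw [K_cons b [(cup, 1), (pos, 0), (pos, 0)] v (pos, 1)]
  have h1 := K_move b (Local.cupNeg 0) [] [(pos, 0), (pos, 1)] v hv rfl rfl
  have h2 := K_move b (Local.two 0) [(cup, 0), (neg, 1), (pos, 0), (pos, 1)] [] v hv rfl rfl
  have h3 := K_move b (Local.three 0) [(cup, 0), (neg, 1)] [(neg, 0)] v hv rfl rfl
  have h4 := K_move b (Local.two' 1) [(cup, 0)] [(pos, 0), (pos, 1), (neg, 0)] v hv rfl rfl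
  have h5 : K b [(cup, 0), (pos, 0), (pos, 1), (neg, 0)] v =
      K b [(cup, 0), (pos, 1), (neg, 0)] v := by
    have g1 := K_cup b [] [(pos, 0), (pos, 1), (neg, 0)] v 0 hv rfl rfl
    have g2 := K_move b (Local.two' 0) [(cup, 0)] [(pos, 1), (neg, 0)] v hv rfl rfl
    simp only [List.append_assoc, List.cons_append, List.nil_append, List.append_nil] at g1 g2
    rw [← g1, g2]
  have h6 := K_move b (Local.cupPos 0) [] [(neg, 0)] v hv rfl rfl
  have h7 := K_neg b [(cup, 1)] [(neg, 0)] v 0 (run_cons4 hv neg (Or.inr rfl) 0 (by norm_num))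
    rfl (by norm_num)
  have h8 := K_move b (Local.two 0) [(cup, 1), (pos, 0), (pos, 0)] [] v hv rfl rfl
  simp only [List.append_assoc, List.cons_append, List.nil_append, List.append_nil,
    zero_add] at h1 h2 h3 h4 h6 h7 h8 ⊢
  rw [← h1, ← h2, h3, h4, h5, h6, h7, h8]

theorem X2_neg : K b [(cup, 1), (pos, 0), (pos, 0)] ((neg, 1) :: v) =
    K b [(cup, 1), (pos, 0), (pos, 0)] v := by
  have hv' := run_cons4 hv neg (Or.inr rfl) 1 (by norm_num)
  rw [← X2_pos b hv', K_cons, K_cons]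
  exact K_move b (Local.two 1) [(cup, 1), (pos, 0), (pos, 0)] [] v hv rfl rfl

theorem E3 : K b [(cup, 1)] v + K b [(cup, 0)] v + K b [(cup, 1), (pos, 0), (pos, 0)] v +
    K b [(cup, 0), (pos, 1), (pos, 1)] v + (b : R) • K b [(cup, 1), (neg, 0)] v = 0 := by
  have hv' := run_cons4 hv pos (Or.inl rfl) 1 (by norm_num)
  have e := E1 b hv'
  have a1 : K b [(cup, 1)] ((pos, 1) :: v) = K b [(cup, 1)] v := by
    have h1 := K_cup b [] [(pos, 1)] v 1 hv rfl rfl
    have h2 := K_move b (Local.two' 1) [(cup, 1)] [] v hv rfl rfl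
    simp only [List.append_assoc, List.cons_append, List.nil_append, List.append_nil] at h1 h2
    rw [K_cons b [(cup, 1)] v (pos, 1)]
    simp only [List.append_assoc, List.cons_append, List.nil_append, List.append_nil]
    rw [← h1, h2]
  have a2 : K b [(cup, 1), (pos, 0)] ((pos, 1) :: v) = K b [(cup, 0)] v := by
    rw [← Yp_eq b hv', K_cons b [(cup, 0), (neg, 1)] v (pos, 1)]
    exact K_move b (Local.two' 1) [(cup, 0)] [] v hv rfl rfl
  have a3 : K b [(cup, 1), (neg, 0)] ((pos, 1) :: v) = K b [(cup, 0), (pos, 1), (pos, 1)] v := by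
    rw [← Ym_eq b hv', K_cons b [(cup, 0), (pos, 1)] v (pos, 1)]
    rfl
  have a4 : K b [(cup, 0)] ((pos, 1) :: v) = K b [(cup, 1), (neg, 0)] v := by
    rw [← Ym_eq b hv, K_cons b [(cup, 0)] v (pos, 1)]
    rfl
  rw [a1, a2, a3, a4, X2_pos b hv] at e
  rw [← e]

theorem E3' : K b [(cup, 1)] v + K b [(cup, 0)] v + K b [(cup, 1), (pos, 0), (pos, 0)] v +
    K b [(cup, 0), (pos, 1), (pos, 1)] v + (b : R) • K b [(cup, 1), (pos, 0)] v = 0 := by
  have hv' := run_cons4 hv neg (Or.inr rfl) 1 (by norm_num)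
  have e := E1 b hv'
  have a1 : K b [(cup, 1)] ((neg, 1) :: v) = K b [(cup, 1)] v := by
    rw [K_cons b [(cup, 1)] v (neg, 1)]
    exact K_cup b [] [] v 1 hv rfl rfl
  have a2 : K b [(cup, 1), (pos, 0)] ((neg, 1) :: v) = K b [(cup, 0), (pos, 1), (pos, 1)] v := by
    rw [← Yp_eq b hv', K_cons b [(cup, 0), (neg, 1)] v (neg, 1)]
    have h7 := K_neg b [(cup, 0)] [(neg, 1)] v 1 (run_cons4 hv neg (Or.inr rfl) 1 (by norm_num))
      rfl (by norm_num)
    have h8 := K_move b (Local.two 1) [(cup, 0), (pos, 1), (pos, 1)] [] v hv rfl rfl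
    simp only [List.append_assoc, List.cons_append, List.nil_append, List.append_nil] at h7 h8 ⊢
    rw [h7, h8]
  have a3 : K b [(cup, 1), (neg, 0)] ((neg, 1) :: v) = K b [(cup, 0)] v := by
    rw [← Ym_eq b hv', K_cons b [(cup, 0), (pos, 1)] v (neg, 1)]
    exact K_move b (Local.two 1) [(cup, 0)] [] v hv rfl rfl
  have a4 : K b [(cup, 0)] ((neg, 1) :: v) = K b [(cup, 1), (pos, 0)] v := by
    rw [← Yp_eq b hv, K_cons b [(cup, 0)] v (neg, 1)]
    rfl
  rw [a1, a2, a3, a4, X2_neg b hv] at e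
  rw [← e]
  abel

theorem Yp_eq_Ym : K b [(cup, 1), (pos, 0)] v = K b [(cup, 1), (neg, 0)] v := by
  have h := (E3' b hv).trans (E3 b hv).symm
  have h1 : (b : R) • K b [(cup, 1), (pos, 0)] v = (b : R) • K b [(cup, 1), (neg, 0)] v :=
    add_left_cancel h
  have h2 := congrArg (fun x => ((b⁻¹ : Rˣ) : R) • x) h1
  simpa only [smul_smul, Units.inv_mul, one_smul] using h2

theorem final : (((b : R) - 2) * ((b : R) + 4)) • K b [(cup, 1)] v = 0 := by
  have hp := run_cons4 hv pos (Or.inl rfl) 0 (by norm_num)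
  have hp1 := run_cons4 hv pos (Or.inl rfl) 1 (by norm_num)
  have x2 : K b [(cup, 1), (pos, 0), (pos, 0)] v = K b [(cup, 1)] v := by
    have h := Yp_eq_Ym b hp
    rw [K_cons b [(cup, 1), (pos, 0)] v, K_cons b [(cup, 1), (neg, 0)] v] at h
    have h8 := K_move b (Local.two' 0) [(cup, 1)] [] v hv rfl rfl
    exact h.trans h8
  have z2 : K b [(cup, 0), (pos, 1), (pos, 1)] v = K b [(cup, 0)] v := by
    have h := Yp_eq_Ym b hp1
    rw [← Yp_eq b hp1, ← Ym_eq b hp1, K_cons b [(cup, 0), (neg, 1)] v,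
      K_cons b [(cup, 0), (pos, 1)] v] at h
    have h8 := K_move b (Local.two' 1) [(cup, 0)] [] v hv rfl rfl
    exact h.symm.trans h8
  have e1 := E1 b hv
  have e2 := E2 b hv
  have e3 := E3' b hv
  rw [x2, ← Yp_eq_Ym b hv] at e1
  rw [z2, ← Yp_eq_Ym b hv] at e2
  rw [x2, z2] at e3
  set X := K b [(cup, 1)] v
  set Y := K b [(cup, 1), (pos, 0)] v
  set Z := K b [(cup, 0)] v
  have d1 : ((b : R) - 2) • (X - Z) = 0 := by
    have : ((b : R) - 2) • (X - Z) = (Z + Y + Z + Y + (b : R) • X) -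
      (X + Y + X + Y + (b : R) • Z) := by module
    rw [this, e1, e2, sub_zero]
  have d2 : ((b : R) - 2) • (Y - Z) = 0 := by
    have : ((b : R) - 2) • (Y - Z) = (X + Z + X + Z + (b : R) • Y) -
      (X + Y + X + Y + (b : R) • Z) := by module
    rw [this, e1, e3, sub_zero]
  have : (((b : R) - 2) * ((b : R) + 4)) • X = ((b : R) - 2) • (Z + Y + Z + Y + (b : R) • X) +
      (4 : R) • (((b : R) - 2) • (X - Z)) - (2 : R) • (((b : R) - 2) • (Y - Z)) := by module
  rw [this, e2, d1, d2]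
  simp

omit hv in
theorem final_trivial : (((b : R) - 2) * ((b : R) + 4)) • kl b [(cup, 0), (cap, 0)] = 0 := by
  have h := final b (v := [(cap, 0), (cap, 0)]) rfl
  have h1 := kl_move b (Local.zag 0) [(cup, 0)] [(cap, 0)] rfl rfl
  have h2 : K b [(cup, 1)] [(cap, 0), (cap, 0)] = kl b [(cup, 0), (cap, 0)] := h1
  rw [h2] at h
  exact h

end special

end Pool.Agent.Q127.SK
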