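import Mathlib.LinearAlgebra.Finsupp.Span
import Mathlib.LinearAlgebra.Quotient.Basic
import Mathlib.RingTheory.Ideal.Span
import Mathlib.Algebra.Polynomial.AlgebraMap
import Mathlib.Algebra.Polynomial.Module.Basic
import Mathlib.Tactic

/-!
# Framed links and the `(4, ∞)` skein module of the 3-sphere: definitions

A diagram of an unoriented framed link (blackboard framing) in Morse position is a word in the
elementary pieces cup, cap, positive and negative crossing, read from the bottom to the top. A piece
`(k, i)` stands to the right of `i` vertical strands. Framed links are the diagrams up to the framed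
Reidemeister moves and the isotopies of the plane.
-/

set_option autoImplicit false

namespace Pool.Agent.Q127.SK

open Polynomial

/-- The kinds of elementary pieces. `cup` is a local minimum, `cap` is a local maximum, `pos` is a
right-handed half twist of two vertical strands and `neg` is a left-handed one. -/
inductive Kind
  | cup
  | cap
  | pos
  | neg

/-- The number of strands which enter the piece at the bottom. -/
def Kind.inw : Kind → ℕ
  | .cup => 0
  | .cap => 2
  | .pos => 2
  | .neg => 2

/-- The number of strands which leave the piece at the top. -/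
def Kind.outw : Kind → ℕ
  | .cup => 2
  | .cap => 0
  | .pos => 2
  | .neg => 2

/-- An elementary piece and the number of strands to the left of it. -/
abbrev Piece := Kind × ℕ

/-- The number of strands above a word with `n` strands below it; `none` if the word does not
make sense there. -/
def run : List Piece → ℕ → Option ℕ
  | [], n => some n
  | p :: w, n => if p.2 + p.1.inw ≤ n then run w (n - p.1.inw + p.1.outw) else none

/-- A link diagram in Morse position. -/
def Diagram : Type := {w : List Piece // run w 0 = some 0}

open Kind in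
/-- The local moves: isotopies of the plane (the exchange of the heights of two distant pieces and
the cancellation of a maximum and a minimum), the second and the third Reidemeister move, a strand
which passes over or under a minimum or a maximum, and the framed version of the first Reidemeister
move (two kinks of the same sign are equal). -/
inductive Local : List Piece → List Piece → Prop
  | far (x y : Kind) (i j : ℕ) (h : i + x.outw ≤ j) :
      Local [(x, i), (y, j)] [(y, j - x.outw + x.inw), (x, i)]
  | zig (i : ℕ) : Local [(cup, i), (cap, i + 1)] []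
  | zag (i : ℕ) : Local [(cup, i + 1), (cap, i)] []
  | two (i : ℕ) : Local [(pos, i), (neg, i)] []
  | two' (i : ℕ) : Local [(neg, i), (pos, i)] []
  | three (i : ℕ) : Local [(pos, i), (pos, i + 1), (pos, i)] [(pos, i + 1), (pos, i), (pos, i + 1)]
  | cupPos (i : ℕ) : Local [(cup, i), (pos, i + 1)] [(cup, i + 1), (neg, i)]
  | cupNeg (i : ℕ) : Local [(cup, i), (neg, i + 1)] [(cup, i + 1), (pos, i)]
  | capPos (i : ℕ) : Local [(pos, i + 1), (cap, i)] [(neg, i), (cap, i + 1)]
  | capNeg (i : ℕ) : Local [(neg, i + 1), (cap, i)] [(pos, i), (cap, i + 1)]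
  | kink (i : ℕ) : Local [(cup, i + 1), (pos, i), (cap, i + 1)] [(cup, i), (pos, i + 1), (cap, i)]

/-- A local move inside a diagram. -/
def Move (D E : Diagram) : Prop :=
  ∃ u v x y : List Piece, Local x y ∧ D.1 = u ++ x ++ v ∧ E.1 = u ++ y ++ v

/-- Unoriented framed links in the 3-sphere up to isotopy. -/
def FramedLink : Type := Quot Move

/-- The framed link of a diagram. -/
def Diagram.link (D : Diagram) : FramedLink := Quot.mk _ D

open Kind in
/-- Skein quintuples: the diagrams agree outside a disc, in which `D₀` is two vertical strands,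
`D₁`, `D₂`, `D₃` have one, two, three right-handed half twists, and `Dinf` is a maximum below a
minimum. -/
def IsQuintuple (D₀ D₁ D₂ D₃ Dinf : Diagram) : Prop :=
  ∃ (u v : List Piece) (i : ℕ), D₀.1 = u ++ v ∧ D₁.1 = u ++ [(pos, i)] ++ v ∧
    D₂.1 = u ++ [(pos, i), (pos, i)] ++ v ∧ D₃.1 = u ++ [(pos, i), (pos, i), (pos, i)] ++ v ∧
    Dinf.1 = u ++ [(cap, i), (cup, i)] ++ v

open Kind in
/-- `E` is obtained from `D` by the addition of a positive kink to a maximum or to a minimum, so
that the framing of one component is increased by one. -/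
def IsFrameUp (D E : Diagram) : Prop :=
  ∃ (u v : List Piece) (i : ℕ),
    (D.1 = u ++ [(cap, i)] ++ v ∧ E.1 = u ++ [(neg, i), (cap, i)] ++ v) ∨
    (D.1 = u ++ [(cup, i)] ++ v ∧ E.1 = u ++ [(cup, i), (neg, i)] ++ v)

section module

variable {R : Type} [CommRing R]

/-- The submodule of the skein relations. -/
noncomputable def skeinRel (a b₀ b₁ b₂ b₃ binf : R) : Submodule R (FramedLink →₀ R) :=
  Submodule.span R
    ({x | ∃ D₀ D₁ D₂ D₃ Dinf : Diagram, IsQuintuple D₀ D₁ D₂ D₃ Dinf ∧
        x = b₀ • Finsupp.single D₀.link 1 + b₁ • Finsupp.single D₁.link 1 +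
          b₂ • Finsupp.single D₂.link 1 + b₃ • Finsupp.single D₃.link 1 +
          binf • Finsupp.single Dinf.link 1} ∪
      {x | ∃ D E : Diagram, IsFrameUp D E ∧
        x = Finsupp.single E.link 1 - a • Finsupp.single D.link 1})

/-- The `(4, ∞)` skein module of the 3-sphere. -/
abbrev SkeinModule (a b₀ b₁ b₂ b₃ binf : R) : Type :=
  (FramedLink →₀ R) ⧸ skeinRel a b₀ b₁ b₂ b₃ binf

open Kind in
/-- The diagram of the trivial link with `n` components. -/
def trivialWord (n : ℕ) : List Piece := (List.replicate n [(cup, 0), (cap, 0)]).flatten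

theorem run_trivialWord (n : ℕ) : run (trivialWord n) 0 = some 0 := by
  induction n with
  | zero => rfl
  | succ n ih =>
    have : trivialWord (n + 1) = [(Kind.cup, 0), (Kind.cap, 0)] ++ trivialWord n := by
      simp [trivialWord, List.replicate_succ]
    rw [this]
    exact ih

/-- The trivial link with `n` components. -/
def trivialLink (n : ℕ) : Diagram := ⟨trivialWord n, run_trivialWord n⟩

/-- The `R`-linear map which takes `t ^ n` to the trivial link with `n` components. -/
noncomputable def trivialMap (a b₀ b₁ b₂ b₃ binf : R) : R[X] →ₗ[R] SkeinModule a b₀ b₁ b₂ b₃ binf :=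
  Polynomial.lsum fun n => LinearMap.toSpanSingleton R (SkeinModule a b₀ b₁ b₂ b₃ binf)
    (Submodule.Quotient.mk (Finsupp.single (trivialLink n).link 1))

/-- The polynomial `p₁`. -/
noncomputable def p₁ (a b₀ b₃ binf : Rˣ) (b₁ b₂ : R) : R[X] :=
  C ((↑a⁻¹ : R) ^ 3 * b₃ + (↑a⁻¹ : R) ^ 2 * b₂ + (↑a⁻¹ : R) * b₁ + b₀) + C (binf : R) * X

/-- The polynomial `p₂`. -/
noncomputable def p₂ (a b₀ b₃ binf : Rˣ) (b₁ b₂ : R) : R[X] :=
  C ((b₀ : R) * b₁ - b₂ * b₃) * X +
    C (((↑a⁻¹ : R) * b₀ ^ 2 - a * b₃ ^ 2) + (a * b₀ * b₂ - (↑a⁻¹ : R) * b₁ * b₃) +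
      binf * (a * b₀ - a ^ 2 * b₃))

end module

end Pool.Agent.Q127.SK
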